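import Pool.Agent.H76.T1.SNTK

/-!
# T1: row SM1K (one small prime)
-/

set_option autoImplicit false
set_option linter.style.haveILetI false

namespace Pool.T1

open Polynomial IsDedekindDomain

theorem H76.all_finite {R : Type} [CommRing R] {K : Type} [Field K] [Algebra R K]
    {O : ValuationSubring K} {π : K} (hfin : ∀ m : ℤ, (Lm R O π m).Finite) (g h : ℕ) :
    (All R O π g h).Finite := by
  let φ : R[X] → (Fin (2 * g + 2) → R) := fun f i => f.coeff i
  let A : Set (Fin (2 * g + 2) → R) := Set.univ.pi fun i =>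
    Lm R O π (((2 * g + 1 - (i : ℕ)) * h : ℕ) : ℤ)
  have hA : A.Finite := Set.Finite.pi fun i => hfin _
  refine Set.Finite.of_finite_image (f := φ) (hA.subset ?_) ?_
  · rintro _ ⟨f, hf, rfl⟩ i _
    have h1 := hf.2.2 (2 * g + 1 - (i : ℕ)) (by omega)
    have h2 : 2 * g + 1 - (2 * g + 1 - (i : ℕ)) = (i : ℕ) := by have := i.2; omega
    rw [h2] at h1
    exact h1
  · intro f hf f' hf' e
    ext j
    by_cases hj : j < 2 * g + 2
    · exact congrFun e ⟨j, hj⟩
    · rw [coeff_eq_zero_of_natDegree_lt, coeff_eq_zero_of_natDegree_lt]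
      · have := hf'.2.1; omega
      · have := hf.2.1; omega

theorem H76.fam_finite {R : Type} [CommRing R] [IsDomain R] {K : Type} [Field K] [Algebra R K]
    {O : ValuationSubring K} {π : K} (hfin : ∀ m : ℤ, (Lm R O π m).Finite) (g : ℕ) (D : Dat R O)
    (h : ℕ) : (Fam π g D h).Finite :=
  (H76.all_finite hfin g h).subset fun _ hf => hf.1

theorem sm1k (hS : SGSKStmt) (hE : EQFKStmt) : SM1KStmt := by
  classical
  intro R _ _ K _ _ _ O π hGR hU c₀ hX g D h hg hD P hPT hPT' hle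
  haveI hPm := P.isMaximal
  have hP0 : P.asIdeal ≠ ⊥ := P.ne_bot
  have hP20 : P.asIdeal ^ 2 ≠ ⊥ := pow_ne_zero 2 hP0
  have hP2P : P.asIdeal ^ 2 ≤ P.asIdeal := Ideal.pow_le_self (by norm_num)
  haveI : Finite (R ⧸ P.asIdeal) := hGR.fin _ hP0
  haveI : Finite (R ⧸ P.asIdeal ^ 2) := hGR.fin _ hP20
  have hP2top : P.asIdeal ^ 2 ≠ ⊤ := fun h1 => hPm.ne_top (top_le_iff.1 (h1 ▸ hP2P))
  haveI : Nontrivial (R ⧸ P.asIdeal ^ 2) := Ideal.Quotient.nontrivial_iff.2 hP2top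
  set 𝔭 : Ideal (R ⧸ P.asIdeal ^ 2) := P.asIdeal.map (Ideal.Quotient.mk (P.asIdeal ^ 2)) with h𝔭
  let e : (R ⧸ P.asIdeal ^ 2) ⧸ 𝔭 ≃+* R ⧸ P.asIdeal := DoubleQuot.quotQuotEquivQuotOfLE hP2P
  have hcardq : Nat.card ((R ⧸ P.asIdeal ^ 2) ⧸ 𝔭) = Nm P := Nat.card_congr e.toEquiv
  have hcard : Nat.card (R ⧸ P.asIdeal ^ 2) = Nm P ^ 2 := by
    have h1 := cardQuot_pow_of_prime (P := P.asIdeal) hP0 (i := 2)
    rw [Submodule.cardQuot_apply, Submodule.cardQuot_apply] at h1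
    exact h1
  have hmax : 𝔭.IsMaximal := by
    rw [Ideal.Quotient.maximal_ideal_iff_isField_quotient]
    exact e.toMulEquiv.isField ((Ideal.Quotient.maximal_ideal_iff_isField_quotient _).1 hPm)
  have hsq : 𝔭 ^ 2 = ⊥ := by
    rw [h𝔭, ← Ideal.map_pow, Ideal.map_quotient_self]
  obtain ⟨hSfin, hScard⟩ := hS (R ⧸ P.asIdeal ^ 2) 𝔭 (2 * g + 1) hmax hsq (by
    rw [hcard, hcardq])
  rw [hcardq, hcard] at hScard
  have hFfin : (Fam π g D h).Finite := H76.fam_finite (fun m => (hU m).1) g D h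
  have hN : 0 < Nm P := Nat.card_pos
  have hN2 : 0 < Nm P ^ (2 * (2 * g + 1)) := pow_pos hN _
  set A : Set R[X] := {f ∈ Fam π g D h | Sing P.asIdeal f} with hA
  have hAfin : A.Finite := hFfin.subset (Set.sep_subset _ _)
  have hmaps : ∀ f ∈ hAfin.toFinset, md (P.asIdeal ^ 2) f ∈ hSfin.toFinset := by
    intro f hf
    rw [Set.Finite.mem_toFinset] at hf ⊢
    obtain ⟨hfF, γ, a, b, c, hγm, hγi, hb, hc, e1⟩ := hf
    refine ⟨hfF.1.1.map _, ?_, md (P.asIdeal ^ 2) γ, md (P.asIdeal ^ 2) a,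
      md (P.asIdeal ^ 2) b, hγm.map _, ?_, ?_, ?_⟩
    · rw [md, hfF.1.1.natDegree_map, hfF.1.2.1]
    · have h1 : Polynomial.mapEquiv e (md 𝔭 (md (P.asIdeal ^ 2) γ)) = md P.asIdeal γ := by
        ext i
        simp only [Polynomial.mapEquiv_apply, md, coeff_map]
        exact DoubleQuot.quotQuotEquivQuotOfLE_quotQuotMk _ hP2P
      rw [← MulEquiv.irreducible_iff (Polynomial.mapEquiv e), h1]
      exact hγi
    · intro i
      rw [md, coeff_map]
      exact Ideal.mem_map_of_mem _ (hb i)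
    · have hc' : md (P.asIdeal ^ 2) c = 0 := (H76.zer_iff_md _ _).1 hc
      rw [e1]
      simp only [md, Polynomial.map_add, Polynomial.map_mul, Polynomial.map_pow] at hc' ⊢
      rw [hc', add_zero]
  have hfib : ∀ r ∈ hSfin.toFinset, (hAfin.toFinset.filter
      fun f => md (P.asIdeal ^ 2) f = r).card ≤
      (Fam π g D h).ncard / Nm P ^ (2 * (2 * g + 1)) := by
    intro r hr
    rw [Set.Finite.mem_toFinset] at hr
    obtain ⟨r', hr1, hr2, hr3⟩ := lifts_and_natDegree_eq_and_monic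
      (f := Ideal.Quotient.mk (P.asIdeal ^ 2)) (p := r)
      ((Polynomial.mem_lifts _).2 (Polynomial.map_surjective _ Ideal.Quotient.mk_surjective r))
      hr.1
    have h1 := hE R K O π hGR hU c₀ hX g D h hg hD P hPT hPT' hle r' hr3 (by rw [hr2, hr.2.1])
    rw [Nat.le_div_iff_mul_le hN2, ← h1]
    refine Nat.mul_le_mul_right _ ?_
    rw [← Set.ncard_coe_finset]
    refine Set.ncard_le_ncard ?_ (hFfin.subset (Set.sep_subset _ _))
    intro f hf
    rw [Finset.mem_coe, Finset.mem_filter, Set.Finite.mem_toFinset] at hf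
    refine ⟨hf.1.1, (H76.zer_iff_md _ _).2 ?_⟩
    have h2 := hf.2
    simp only [md, Polynomial.map_sub] at h2 ⊢
    rw [h2, hr1, sub_self]
  have hcount := Finset.card_le_mul_card_image_of_maps_to hmaps _ hfib
  rw [← Set.ncard_eq_toFinset_card A hAfin, ← Set.ncard_eq_toFinset_card _ hSfin] at hcount
  have hdiv : (Fam π g D h).ncard / Nm P ^ (2 * (2 * g + 1)) * Nm P ^ (2 * (2 * g + 1)) ≤
      (Fam π g D h).ncard := Nat.div_mul_le_self _ _
  rw [← pow_mul] at hScard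
  refine Nat.le_of_mul_le_mul_right (c := Nm P ^ (2 * (2 * g + 1))) ?_ hN2
  generalize (Fam π g D h).ncard / Nm P ^ (2 * (2 * g + 1)) = k at hcount hdiv
  generalize Nm P ^ (2 * (2 * g + 1)) = M at *
  calc A.ncard * (Nm P ^ 2 - 1) * M
      ≤ (k * (SgS 𝔭 (2 * g + 1)).ncard) * (Nm P ^ 2 - 1) * M :=
        Nat.mul_le_mul_right _ (Nat.mul_le_mul_right _ hcount)
    _ = (k * M) * ((SgS 𝔭 (2 * g + 1)).ncard * (Nm P ^ 2 - 1)) := by ring
    _ ≤ (Fam π g D h).ncard * M := Nat.mul_le_mul hdiv hScard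

end Pool.T1
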