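import Pool.Agent.H94.T1.S6

/-!
# T1: row SNTK (no singular points above the primes of `T` and `T'`)
-/

set_option autoImplicit false

namespace Pool.T1

open Polynomial IsDedekindDomain

private theorem sntk_aux1 {k : Type} [Field k] {g : ℕ} {c : k} {G γ a : k[X]} (hG : Irreducible G)
    (hGd : G.natDegree = 2 * g) (hγ : Irreducible γ)
    (h : (X - C c) * G = γ ^ 2 * a) : False := by
  have h3 : Squarefree ((X - C c) * G) := by
    rw [squarefree_mul_iff]
    refine ⟨?_, (irreducible_X_sub_C _).squarefree, hG.squarefree⟩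
    apply IsCoprime.isRelPrime
    rw [Irreducible.coprime_iff_not_dvd (irreducible_X_sub_C _)]
    intro h4
    have h5 := (irreducible_X_sub_C c).associated_of_dvd hG h4
    have h6 := natDegree_eq_of_degree_eq (degree_eq_degree_of_associated h5)
    rw [natDegree_X_sub_C, hGd] at h6
    omega
  rw [h] at h3
  exact hγ.not_isUnit (h3 γ ⟨a, by ring⟩)

private theorem sntk_aux2 {k : Type} [Field k] {G γ a : k[X]} (hG : Irreducible G)
    (hγ : Irreducible γ) (h : G = γ ^ 2 * a) : False := by
  have h3 := hG.squarefree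
  rw [h] at h3
  exact hγ.not_isUnit (h3 γ ⟨a, by ring⟩)

theorem H76.zer_iff_md {R : Type} [CommRing R] (I : Ideal R) (p : R[X]) : Zer I p ↔ md I p = 0 := by
  constructor
  · intro h
    ext i
    rw [md, coeff_map, coeff_zero]
    exact Ideal.Quotient.eq_zero_iff_mem.2 (h i)
  · intro h i
    have h1 := congrArg (fun q => q.coeff i) h
    simp only [md, coeff_map, coeff_zero] at h1
    exact Ideal.Quotient.eq_zero_iff_mem.1 h1

theorem sntk : SNTKStmt := by
  intro R _ _ K _ _ _ O π hGR g D h hD f hf P hP hs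
  obtain ⟨γ, a, b, c, hγm, hγi, hb, hc, e⟩ := hs
  have hb' : md P.asIdeal b = 0 := (H76.zer_iff_md _ _).1 hb
  have hc' : md P.asIdeal c = 0 :=
    (H76.zer_iff_md _ _).1 fun i => Ideal.pow_le_self (by norm_num) (hc i)
  have h2 : md P.asIdeal f = (md P.asIdeal γ) ^ 2 * md P.asIdeal a := by
    rw [e]
    simp only [md, Polynomial.map_add, Polynomial.map_mul, Polynomial.map_pow] at hb' hc' ⊢
    rw [hb', hc']
    ring
  haveI := P.isMaximal
  letI := Ideal.Quotient.field P.asIdeal
  rcases hP with hP | hP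
  · obtain ⟨hm, hd, hi⟩ := hD.2.1 P hP
    have h1 : md P.asIdeal f = (X - C (Ideal.Quotient.mk P.asIdeal (D.c P))) *
        md P.asIdeal (D.γ P) := by
      have h3 := (H76.zer_iff_md _ _).1 (hf.2.2.1 P hP)
      simp only [md, Polynomial.map_sub, Polynomial.map_mul, map_X, map_C] at h3 ⊢
      exact sub_eq_zero.1 h3
    refine sntk_aux1 (g := g) hi ?_ hγi (h1.symm.trans h2)
    rw [md, hm.natDegree_map, hd]
  · obtain ⟨hm, hd, hi⟩ := hD.2.2.1 P hP
    have h1 : md P.asIdeal f = md P.asIdeal (D.ρ P) := by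
      have h3 := (H76.zer_iff_md _ _).1 (hf.2.2.2 P hP)
      simp only [md, Polynomial.map_sub] at h3 ⊢
      exact sub_eq_zero.1 h3
    exact sntk_aux2 hi hγi (h1.symm.trans h2)

end Pool.T1
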